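import Pool.Agent.KS6_48.SLD.Draw
import Pool.Agent.KS6_48.SLD.Lower
import Pool.Graph.R_pool_sql_team_seeded_47a924f7.T6.H90.SL.A1
import Pool.Graph.R_pool_sql_team_seeded_47a924f7.T6.H90.SL.A2
import Pool.Graph.R_pool_sql_team_seeded_47a924f7.T6.H90.SL.B1
import Pool.Graph.R_pool_sql_team_seeded_47a924f7.T6.H90.SL.B2
import Pool.Graph.R_pool_sql_team_seeded_47a924f7.T6.H90.SL.B3
import Pool.Graph.R_pool_sql_team_seeded_47a924f7.T6.H90.SL.D
import Pool.Graph.R_pool_sql_team_seeded_47a924f7.T6.H90.SL.E
import Pool.Graph.R_pool_sql_team_seeded_47a924f7.T6.H90.SL.F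
import Pool.Graph.R_pool_sql_team_seeded_47a924f7.T6.H90.SL.G
import Pool.Graph.R_pool_sql_team_seeded_47a924f7.T6.H90.SL.H1
import Pool.Graph.R_pool_sql_team_seeded_47a924f7.T6.H90.SL.H
import Pool.Graph.R_pool_sql_team_seeded_47a924f7.T6.H90.SL.I1
import Pool.Graph.R_pool_sql_team_seeded_47a924f7.T6.H90.SL.I2
import Pool.Graph.R_pool_sql_team_seeded_47a924f7.T6.H90.SL.I3
import Pool.Graph.R_pool_sql_team_seeded_47a924f7.T6.H90.SL.J

set_option autoImplicit false

/-!
# Upward planar drawings of bipartite DAGs: both area functions are quadratic, better constants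

Every upward planar bipartite DAG with `n` vertices has an upward planar straight-line grid drawing
of width at most `81 n + 16` and height at most `162 n + 30`. Together with a quadratic lower bound
for poly-line drawings this gives
`(n - 11)² / 16 ≤ A_p(n) ≤ A_s(n) ≤ (81 n + 16) (162 n + 30)` for all `n ≥ 11`.

The modules of the straight-line construction (by a sweep, an augmentation, an `st`-numbering and
weighted Schnyder coordinates) and the example of the lower bound are in the library; the counts of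
the vertices in the sweep and in the augmentation are refined here, the drawing is reflected if there
are more sources than sinks, and the isolated vertices are treated separately.
-/

namespace Pool.Agent.Results.MP_9caa86_co.BothAreasQuadratic

open Pool.Agent.T6.H90.Upward Pool.Agent.T6.H90.SL Pool.Agent.KS6_48.SLD

/-- An upward planar drawing of the digraph `E` by arbitrary curves with increasing `y`-coordinate:
the vertex `v` is drawn at the point `(px v, py v)` and the edge `(u, v)` is the curve
`x = X u v y`, `py u ≤ y ≤ py v`, from the point of `u` to the point of `v`. -/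
structure CurveDrawing {V : Type} (E : V → V → Prop) where
  /-- the `x`-coordinates of the vertices -/
  px : V → ℝ
  /-- the `y`-coordinates of the vertices -/
  py : V → ℝ
  /-- the curve `x = X u v y` of the edge `(u, v)` -/
  X : V → V → ℝ → ℝ
  /-- the vertices are drawn at distinct points -/
  inj : ∀ u v, px u = px v → py u = py v → u = v
  up : ∀ u v, E u v → py u < py v
  cont : ∀ u v, E u v → ContinuousOn (X u v) (Set.Icc (py u) (py v))
  start : ∀ u v, E u v → X u v (py u) = px u
  stop : ∀ u v, E u v → X u v (py v) = px v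
  /-- a vertex lies on an edge only if it is an end of the edge -/
  vertex_not_on_edge : ∀ u v w, E u v → py w ∈ Set.Icc (py u) (py v) → X u v (py w) = px w →
    w = u ∨ w = v
  /-- two different edges meet only in common ends -/
  planar : ∀ u v x y t, E u v → E x y → (u, v) ≠ (x, y) → t ∈ Set.Icc (py u) (py v) →
    t ∈ Set.Icc (py x) (py y) → X u v t = X x y t →
    ∃ w, (w = u ∨ w = v) ∧ (w = x ∨ w = y) ∧ t = py w

theorem mono {V : Type} {E : V → V → Prop} (h : Nonempty (CurveDrawing E)) :
    Nonempty (Mono E) := by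
  obtain ⟨D⟩ := h
  exact ⟨⟨D.px, D.py, D.X, D.inj, D.up, D.cont, D.start, D.stop, D.vertex_not_on_edge, D.planar⟩⟩

theorem curveDrawing {V : Type} {E : V → V → Prop} (h : Nonempty (Mono E)) :
    Nonempty (CurveDrawing E) := by
  obtain ⟨D⟩ := h
  exact ⟨⟨D.px, D.py, D.X, D.inj, D.up, D.cont, D.X_src, D.X_tgt, D.vert, D.cross⟩⟩

/-- `A_s(n)`: the maximum over all bipartite DAGs with `n` vertices that have an upward planar
drawing of the minimum area of an upward planar straight-line grid drawing. -/
noncomputable def As (n : ℕ) : ℝ :=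
  sSup {A : ℝ | ∃ E : Fin n → Fin n → Prop, IsBipartiteDAG E ∧ Nonempty (CurveDrawing E) ∧
    A = minStraightArea E}

/-- `A_p(n)`: the maximum over all bipartite DAGs with `n` vertices that have an upward planar
drawing of the minimum area of an upward planar poly-line grid drawing. -/
noncomputable def Ap (n : ℕ) : ℝ :=
  sSup {A : ℝ | ∃ E : Fin n → Fin n → Prop, IsBipartiteDAG E ∧ Nonempty (CurveDrawing E) ∧
    A = minPolyArea E}

theorem mods : Mods := ⟨a2, b1, b2, b3, d, e, g f g1, h h1, i1, i2, i3, j⟩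

/-- Every upward planar bipartite DAG with `n` vertices has an upward planar straight-line grid
drawing of width at most `81 n + 16` and height at most `162 n + 30`, and
`(n - 11)² / 16 ≤ A_p(n) ≤ A_s(n) ≤ (81 n + 16) (162 n + 30)` for all `n ≥ 11`. -/
theorem result :
    (∀ n : ℕ, ∀ E : Fin n → Fin n → Prop, IsBipartiteDAG E → Nonempty (CurveDrawing E) →
      ∃ D : Drawing E, D.Straight ∧ D.FitsIn (81 * n + 16) (162 * n + 30)) ∧
    ∀ n : ℕ, 11 ≤ n → ((n : ℝ) - 11) ^ 2 / 16 ≤ Ap n ∧ Ap n ≤ As n ∧
      As n ≤ (81 * (n : ℝ) + 16) * (162 * n + 30) := by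
  have key : ∀ n : ℕ, ∀ E : Fin n → Fin n → Prop, IsBipartiteDAG E →
      Nonempty (CurveDrawing E) →
      ∃ D : Drawing E, D.Straight ∧ D.FitsIn (81 * n + 16) (162 * n + 30) := by
    intro n E hE hM
    obtain ⟨D, h1, h2⟩ := draw mods (Fin n) E hE (mono hM)
    refine ⟨D, h1, ?_⟩
    simpa using h2
  refine ⟨key, ?_⟩
  intro n hn
  have hfinS : {A : ℝ | ∃ E : Fin n → Fin n → Prop, IsBipartiteDAG E ∧
      Nonempty (CurveDrawing E) ∧ A = minStraightArea E}.Finite := by
    refine (Set.finite_range (fun E : Fin n → Fin n → Prop => minStraightArea E)).subset ?_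
    rintro A ⟨E, -, -, rfl⟩
    exact ⟨E, rfl⟩
  have hfinP : {A : ℝ | ∃ E : Fin n → Fin n → Prop, IsBipartiteDAG E ∧
      Nonempty (CurveDrawing E) ∧ A = minPolyArea E}.Finite := by
    refine (Set.finite_range (fun E : Fin n → Fin n → Prop => minPolyArea E)).subset ?_
    rintro A ⟨E, -, -, rfl⟩
    exact ⟨E, rfl⟩
  have hcur : Nonempty (CurveDrawing (EG n)) := curveDrawing (a1 _ _ ⟨drG n⟩)
  refine ⟨?_, ?_, ?_⟩
  · exact (le_minPoly n hn).trans (le_csSup hfinP.bddAbove ⟨EG n, EG_bip n, hcur, rfl⟩)
  · refine csSup_le ⟨_, EG n, EG_bip n, hcur, rfl⟩ ?_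
    rintro A ⟨E, hE, hM, rfl⟩
    have h1 : minPolyArea E ≤ minStraightArea E := by
      obtain ⟨D, h1, h2⟩ := key n E hE hM
      refine csInf_le_csInf ⟨0, ?_⟩ ⟨_, D, _, _, h1, ?_, ?_, h2, rfl⟩ ?_
      · rintro A ⟨D', W, H, hW, hH, -, rfl⟩
        exact mul_nonneg hW hH
      · positivity
      · positivity
      · rintro A ⟨D', W, H, -, hW, hH, h3, rfl⟩
        exact ⟨D', W, H, hW, hH, h3, rfl⟩
    exact h1.trans (le_csSup hfinS.bddAbove ⟨E, hE, hM, rfl⟩)
  · refine csSup_le ⟨_, EG n, EG_bip n, hcur, rfl⟩ ?_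
    rintro A ⟨E, hE, hM, rfl⟩
    obtain ⟨D, h1, h2⟩ := key n E hE hM
    refine csInf_le ⟨0, ?_⟩ ⟨D, 81 * n + 16, 162 * n + 30, h1, by positivity, by positivity, h2, rfl⟩
    rintro A ⟨D', W, H, -, hW, hH, -, rfl⟩
    exact mul_nonneg hW hH

end Pool.Agent.Results.MP_9caa86_co.BothAreasQuadratic
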